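import Pool.Agent.TH839.UH.Stm
import Pool.Agent.W565.HF.Hup

/-!
# UH-HUP2: upper bound for the heat flow, uniformly in `K ≤ κ1 ℓ`
(copy of the proof of `Pool.Agent.W565.HF.hup` with explicit constants)
-/

set_option autoImplicit false

open Complex MeasureTheory Filter Topology Set
open scoped ComplexConjugate

namespace Pool.Agent.TH761.UH

open Pool.Agent.W169.HF Pool.Agent.W565.HF Pool.Agent.TH839.UH

theorem hup2 : Pool.Agent.TH839.UH.S_HUP2 := by
  intro X hX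
  have hX0 : 0 < X := by linarith
  refine ⟨1 / (16 * X), 1, 4 + 4 * X ^ 2, by positivity, by nlinarith [sq_nonneg X], ?_⟩
  intro K ℓ G t f hK hKℓ hℓ hf ht htX u
  have hK0 : 0 < K := by linarith
  have hKX : 0 < K * X := by positivity
  have hℓ0 : 0 < ℓ := by linarith
  have hG := hf.hG
  set θ0 : ℝ := 1 / 2 with hθ0
  -- the constants
  have h8 : 8 * K * t ≤ 1 / 2 := by
    have h1 : 8 * K * t ≤ 8 * (1 / (16 * X) * ℓ) * t := by
      have := mul_le_mul_of_nonneg_right hKℓ ht.le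
      nlinarith
    have h2 : 8 * (1 / (16 * X) * ℓ) * t = (2 * t * ℓ) / (4 * X) := by
      field_simp
      ring
    have h3 : (2 * t * ℓ) / (4 * X) ≤ X / (4 * X) := by gcongr
    have h4 : X / (4 * X) = 1 / 4 := by field_simp
    linarith
  set c : ℝ := 1 - 8 * K * t with hc
  have hc2 : 1 / 2 ≤ c := by linarith
  have hc0 : 0 < c := by linarith
  set b : ℝ := Real.sqrt t * ℓ with hb
  have hst : 0 ≤ Real.sqrt t := Real.sqrt_nonneg t
  have hstt : Real.sqrt t * Real.sqrt t = t := Real.mul_self_sqrt ht.le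
  have hb0 : 0 ≤ b := by positivity
  set M : ℝ := max |u.re| θ0 with hM
  set C : ℝ := G * Real.exp (ℓ * M + K * (1 + 2 * ‖u‖ ^ 2)) * Real.exp (b ^ 2 / c) with hC
  have hC0 : 0 ≤ C := by positivity
  obtain ⟨hI, hIe⟩ := gauss_two c (b / c) hc0
  -- pointwise
  have hpt : ∀ v : ℝ, ‖((Real.exp (-v ^ 2) : ℝ) : ℂ) * f (u + ((2 * Real.sqrt t * v : ℝ) : ℂ))‖ ≤
      C * (Real.exp (-c * (v - b / c) ^ 2) + Real.exp (-c * (v + b / c) ^ 2)) := by
    intro v
    rw [norm_mul, Complex.norm_real, Real.norm_eq_abs, abs_of_pos (Real.exp_pos _)]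
    have h1 := hf.up (u + ((2 * Real.sqrt t * v : ℝ) : ℂ))
    have h2 : max |(u + ((2 * Real.sqrt t * v : ℝ) : ℂ)).re| θ0 ≤ M + 2 * Real.sqrt t * |v| := by
      have h3 : |(u + ((2 * Real.sqrt t * v : ℝ) : ℂ)).re| ≤ |u.re| + 2 * Real.sqrt t * |v| := by
        rw [Complex.add_re, Complex.ofReal_re]
        refine (abs_add_le _ _).trans ?_
        rw [abs_mul, abs_mul, abs_of_nonneg hst, abs_of_pos (by norm_num : (0 : ℝ) < 2)]
      have h4 : 0 ≤ 2 * Real.sqrt t * |v| := by positivity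
      apply max_le
      · linarith [le_max_left |u.re| θ0]
      · linarith [le_max_right |u.re| θ0]
    have h3 : ‖u + ((2 * Real.sqrt t * v : ℝ) : ℂ)‖ ^ 2 ≤ 2 * ‖u‖ ^ 2 + 8 * t * v ^ 2 := by
      have h4 : ‖u + ((2 * Real.sqrt t * v : ℝ) : ℂ)‖ ≤ ‖u‖ + 2 * Real.sqrt t * |v| := by
        refine (norm_add_le _ _).trans ?_
        rw [Complex.norm_real, Real.norm_eq_abs, abs_mul, abs_mul, abs_of_nonneg hst,
          abs_of_pos (by norm_num : (0 : ℝ) < 2)]
      have h5 : 0 ≤ ‖u‖ := norm_nonneg _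
      have h6 : ‖u + ((2 * Real.sqrt t * v : ℝ) : ℂ)‖ ^ 2 ≤ (‖u‖ + 2 * Real.sqrt t * |v|) ^ 2 :=
        pow_le_pow_left₀ (norm_nonneg _) h4 2
      have h7 : (2 * Real.sqrt t * |v|) ^ 2 = 4 * t * v ^ 2 := by
        rw [mul_pow, mul_pow, sq_abs, Real.sq_sqrt ht.le]
        ring
      nlinarith [sq_nonneg (‖u‖ - 2 * Real.sqrt t * |v|)]
    have h4 : ‖f (u + ((2 * Real.sqrt t * v : ℝ) : ℂ))‖ ≤
        G * Real.exp (ℓ * (M + 2 * Real.sqrt t * |v|) + K * (1 + (2 * ‖u‖ ^ 2 + 8 * t * v ^ 2))) := by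
      refine h1.trans (mul_le_mul_of_nonneg_left (Real.exp_le_exp.2 ?_) hG.le)
      have e1 := mul_le_mul_of_nonneg_left h2 hℓ0.le
      have e2 := mul_le_mul_of_nonneg_left h3 hK0.le
      nlinarith
    have h5 : Real.exp (-v ^ 2) * (G * Real.exp (ℓ * (M + 2 * Real.sqrt t * |v|) +
        K * (1 + (2 * ‖u‖ ^ 2 + 8 * t * v ^ 2)))) = C * Real.exp (-c * (|v| - b / c) ^ 2) := by
      rw [hC]
      have e1 : ∀ x y z : ℝ, Real.exp x * (G * Real.exp y) = G * Real.exp z * Real.exp (x + y - z) := by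
        intro x y z
        rw [mul_assoc, ← Real.exp_add, mul_left_comm, ← Real.exp_add]
        congr 2
        ring
      rw [e1 _ _ (ℓ * M + K * (1 + 2 * ‖u‖ ^ 2)), mul_assoc _ (Real.exp (b ^ 2 / c)),
        ← Real.exp_add]
      congr 2
      have hsq : |v| ^ 2 = v ^ 2 := sq_abs v
      have e2 : c * (|v| - b / c) ^ 2 = c * v ^ 2 - 2 * b * |v| + b ^ 2 / c := by
        rw [← hsq]
        have hc' : c ≠ 0 := hc0.ne'
        generalize |v| = x
        field_simp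
        ring
      have e3 : -c * (|v| - b / c) ^ 2 = -(c * (|v| - b / c) ^ 2) := by ring
      rw [e3, e2, hb, hc]
      ring
    have h6 : Real.exp (-c * (|v| - b / c) ^ 2) ≤
        Real.exp (-c * (v - b / c) ^ 2) + Real.exp (-c * (v + b / c) ^ 2) := by
      rcases abs_cases v with ⟨hv, _⟩ | ⟨hv, _⟩
      · rw [hv]
        linarith [Real.exp_pos (-c * (v + b / c) ^ 2)]
      · rw [hv, show (-v - b / c) ^ 2 = (v + b / c) ^ 2 by ring]
        linarith [Real.exp_pos (-c * (v - b / c) ^ 2)]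
    calc Real.exp (-v ^ 2) * ‖f (u + ((2 * Real.sqrt t * v : ℝ) : ℂ))‖
        ≤ Real.exp (-v ^ 2) * (G * Real.exp (ℓ * (M + 2 * Real.sqrt t * |v|) +
            K * (1 + (2 * ‖u‖ ^ 2 + 8 * t * v ^ 2)))) :=
          mul_le_mul_of_nonneg_left h4 (Real.exp_pos _).le
      _ = C * Real.exp (-c * (|v| - b / c) ^ 2) := h5
      _ ≤ _ := mul_le_mul_of_nonneg_left h6 hC0
  have hint := norm_integral_le_of_norm_le (hI.const_mul C) (Eventually.of_forall hpt)
  rw [integral_const_mul, hIe] at hint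
  unfold heat
  rw [norm_mul, Complex.norm_real, Real.norm_eq_abs,
    abs_of_nonneg (by positivity : (0 : ℝ) ≤ 1 / Real.sqrt Real.pi)]
  have hpi : 0 < Real.sqrt Real.pi := Real.sqrt_pos.2 Real.pi_pos
  have hsq : Real.sqrt (Real.pi / c) ≤ Real.sqrt Real.pi * (3 / 2) := by
    rw [Real.sqrt_le_left (by positivity), mul_pow, Real.sq_sqrt Real.pi_pos.le, div_le_iff₀ hc0]
    nlinarith [Real.pi_pos]
  have hbc : b ^ 2 / c ≤ t * ℓ ^ 2 + 4 * K * X ^ 2 := by
    rw [div_le_iff₀ hc0]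
    have e1 : b ^ 2 = t * ℓ ^ 2 := by
      rw [hb, mul_pow, Real.sq_sqrt ht.le]
    rw [e1]
    have e2 : (2 * t * ℓ) ^ 2 ≤ X ^ 2 := pow_le_pow_left₀ (by positivity) htX 2
    have e3 : 0 ≤ K * (X ^ 2 - (2 * t * ℓ) ^ 2) := mul_nonneg hK0.le (by linarith)
    have e4 : K * X ^ 2 * 4 * c ≥ K * (2 * t * ℓ) ^ 2 * 4 * (1 / 2) := by
      have : K * (2 * t * ℓ) ^ 2 * 4 ≤ K * X ^ 2 * 4 := by nlinarith
      calc K * X ^ 2 * 4 * c ≥ K * X ^ 2 * 4 * (1 / 2) := by
            apply mul_le_mul_of_nonneg_left hc2 (by positivity)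
        _ ≥ _ := by linarith
    have e5 : t * ℓ ^ 2 * c = t * ℓ ^ 2 - K * (2 * t * ℓ) ^ 2 * 2 := by
      rw [hc]; ring
    nlinarith
  have h3 : (3 : ℝ) ≤ Real.exp 2 := by
    have := Real.add_one_le_exp (2 : ℝ)
    linarith
  calc 1 / Real.sqrt Real.pi * ‖∫ v : ℝ, ((Real.exp (-v ^ 2) : ℝ) : ℂ) *
        f (u + ((2 * Real.sqrt t * v : ℝ) : ℂ))‖
      ≤ 1 / Real.sqrt Real.pi * (C * (2 * Real.sqrt (Real.pi / c))) :=
        mul_le_mul_of_nonneg_left hint (by positivity)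
    _ ≤ 1 / Real.sqrt Real.pi * (C * (2 * (Real.sqrt Real.pi * (3 / 2)))) := by
        apply mul_le_mul_of_nonneg_left _ (by positivity)
        apply mul_le_mul_of_nonneg_left _ hC0
        linarith
    _ = C * 3 := by
        have hpi' : Real.sqrt Real.pi ≠ 0 := hpi.ne'
        have e1 : 1 / Real.sqrt Real.pi * (C * (2 * (Real.sqrt Real.pi * (3 / 2)))) =
            (1 / Real.sqrt Real.pi * Real.sqrt Real.pi) * (C * 3) := by ring
        rw [e1, one_div, inv_mul_cancel₀ hpi', one_mul]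
    _ ≤ C * Real.exp 2 := mul_le_mul_of_nonneg_left h3 hC0
    _ ≤ (G * Real.exp (ℓ * M + K * (1 + 2 * ‖u‖ ^ 2)) * Real.exp (t * ℓ ^ 2 + 4 * K * X ^ 2)) *
          Real.exp 2 := by
        apply mul_le_mul_of_nonneg_right _ (Real.exp_pos _).le
        rw [hC]
        exact mul_le_mul_of_nonneg_left (Real.exp_le_exp.2 hbc) (by positivity)
    _ = G * Real.exp (t * ℓ ^ 2) * Real.exp (ℓ * M + (K * (1 + 2 * ‖u‖ ^ 2) + 4 * K * X ^ 2 + 2)) := by
        rw [mul_assoc G, mul_assoc G, mul_assoc G, ← Real.exp_add, ← Real.exp_add, ← Real.exp_add]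
        congr 2
        ring
    _ ≤ _ := by
        apply mul_le_mul_of_nonneg_left _ (by positivity)
        apply Real.exp_le_exp.2
        have hn : 0 ≤ ‖u‖ ^ 2 := by positivity
        have h5 : 0 ≤ (2 * K + 4 * K * X ^ 2) * ‖u‖ ^ 2 := by positivity
        nlinarith

end Pool.Agent.TH761.UH
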